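import Pool.Agent.Helper78.GL.Spec

set_option autoImplicit false

open MeasureTheory Metric Set Filter Topology

namespace Helper35.GL

open Helper78.GL

lemma two_le_infty : (2 : WithTop ℕ∞) ≤ ((⊤ : ℕ∞) : WithTop ℕ∞) :=
  WithTop.coe_le_coe.2 (le_top : (2 : ℕ∞) ≤ ⊤)

lemma one_le_infty : (1 : WithTop ℕ∞) ≤ ((⊤ : ℕ∞) : WithTop ℕ∞) :=
  WithTop.coe_le_coe.2 (le_top : (1 : ℕ∞) ≤ ⊤)

lemma dX_congr {f g : ℂ → ℝ} {z : ℂ} (h : f =ᶠ[𝓝 z] g) : dX f =ᶠ[𝓝 z] dX g := by
  filter_upwards [h.fderiv (𝕜 := ℝ)] with y hy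
  simp only [dX, hy]

lemma dY_congr {f g : ℂ → ℝ} {z : ℂ} (h : f =ᶠ[𝓝 z] g) : dY f =ᶠ[𝓝 z] dY g := by
  filter_upwards [h.fderiv (𝕜 := ℝ)] with y hy
  simp only [dY, hy]

lemma lap_congr {f g : ℂ → ℝ} {z : ℂ} (h : f =ᶠ[𝓝 z] g) : lap f z = lap g z := by
  rw [lap, lap, (dX_congr (dX_congr h)).eq_of_nhds, (dY_congr (dY_congr h)).eq_of_nhds]

lemma dX_neg (f : ℂ → ℝ) : dX (fun y => -f y) = fun y => -dX f y := by
  funext y
  simp only [dX]
  rw [show (fun y => -f y) = -f from rfl, fderiv_neg]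
  rfl

lemma dY_neg (f : ℂ → ℝ) : dY (fun y => -f y) = fun y => -dY f y := by
  funext y
  simp only [dY]
  rw [show (fun y => -f y) = -f from rfl, fderiv_neg]
  rfl

lemma lap_neg (f : ℂ → ℝ) (z : ℂ) : lap (fun y => -f y) z = -lap f z := by
  simp only [lap, dX_neg, dY_neg]
  ring

lemma lap_translate (F : ℂ → ℝ) (z₀ w : ℂ) : lap (fun y => F (z₀ + y)) w = lap F (z₀ + w) := by
  have h1 : dX (fun y => F (z₀ + y)) = fun y => dX F (z₀ + y) := by
    funext y; simp only [dX]; rw [fderiv_comp_add_left]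
  have h2 : dY (fun y => F (z₀ + y)) = fun y => dY F (z₀ + y) := by
    funext y; simp only [dY]; rw [fderiv_comp_add_left]
  have h3 : dX (fun y => dX F (z₀ + y)) w = dX (dX F) (z₀ + w) := by
    rw [dX, fderiv_comp_add_left]; rfl
  have h4 : dY (fun y => dY F (z₀ + y)) w = dY (dY F) (z₀ + w) := by
    rw [dY, fderiv_comp_add_left]; rfl
  rw [lap, lap, h1, h2, h3, h4]

lemma contDiff_dX {f : ℂ → ℝ} (h : ContDiff ℝ 2 f) : ContDiff ℝ 1 (dX f) := by
  have : ContDiff ℝ 1 (fderiv ℝ f) := h.fderiv_right (by norm_num)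
  exact this.clm_apply contDiff_const

lemma contDiff_dY {f : ℂ → ℝ} (h : ContDiff ℝ 2 f) : ContDiff ℝ 1 (dY f) := by
  have : ContDiff ℝ 1 (fderiv ℝ f) := h.fderiv_right (by norm_num)
  exact this.clm_apply contDiff_const

lemma continuous_lap {f : ℂ → ℝ} (h : ContDiff ℝ 2 f) : Continuous (lap f) := by
  have h1 : Continuous (dX (dX f)) :=
    ((contDiff_dX h).continuous_fderiv one_ne_zero).clm_apply continuous_const
  have h2 : Continuous (dY (dY f)) :=
    ((contDiff_dY h).continuous_fderiv one_ne_zero).clm_apply continuous_const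
  exact h1.add h2

/-- the average as an integral against the scaled profile -/
lemma avg_eq (P : Profile) (f : ℂ → ℝ) (z : ℂ) {r : ℝ} (hr : 0 < r) :
    avg P.χ f z r = ∫ y : ℂ, ((r⁻¹) ^ 2 * P.χ ((r⁻¹ : ℝ) * y)) * f (z + y) := by
  have h1 : avg P.χ f z r =
      ∫ w : ℂ, (fun x : ℂ => P.χ ((r⁻¹ : ℝ) * x) * f (z + x)) (r • w) := by
    rw [avg]
    congr 1
    funext w
    simp only [Complex.real_smul]
    rw [← mul_assoc, ← Complex.ofReal_mul, inv_mul_cancel₀ hr.ne', Complex.ofReal_one, one_mul]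
  rw [h1, Measure.integral_comp_smul volume (fun x : ℂ => P.χ ((r⁻¹ : ℝ) * x) * f (z + x)) r,
    Complex.finrank_real_complex, abs_of_pos (by positivity),
    smul_eq_mul, ← integral_const_mul]
  congr 1
  funext y
  rw [inv_pow]
  ring

lemma avg_congr (P : Profile) {f g : ℂ → ℝ} {z : ℂ} {r : ℝ} (hr : 0 < r)
    (h : ∀ y ∈ ball z r, f y = g y) : avg P.χ f z r = avg P.χ g z r := by
  rw [avg, avg]
  congr 1
  funext w
  by_cases hw : ‖w‖ < 1
  · rw [h]
    rw [mem_ball, dist_eq_norm, add_sub_cancel_left, norm_mul, Complex.norm_real,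
      Real.norm_eq_abs, abs_of_pos hr]
    nlinarith
  · rw [P.χ_supp w (not_lt.1 hw), zero_mul, zero_mul]

/-- a smooth compactly supported function which agrees with `f` near `z₀` -/
lemma exists_smooth (P : Profile) {R : ℝ} {f : ℂ → ℝ} (hf : ContinuousOn f (ball 0 R))
    (hmv : ∀ (z : ℂ) (r : ℝ), 0 < r → ‖z‖ + r < R → avg P.χ f z r = f z) {z₀ : ℂ}
    (hz₀ : ‖z₀‖ < R) :
    ∃ F : ℂ → ℝ, ContDiff ℝ (⊤ : ℕ∞) F ∧ HasCompactSupport F ∧
      ∀ z ∈ ball z₀ ((R - ‖z₀‖) / 4), f z = F z := by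
  set r : ℝ := (R - ‖z₀‖) / 4 with hr
  have hr0 : 0 < r := by rw [hr]; linarith
  let ft : ℂ → ℝ := (closedBall z₀ (2 * r)).indicator f
  have hsub : closedBall z₀ (2 * r) ⊆ ball 0 R := by
    apply closedBall_subset_ball'
    rw [dist_zero_right, hr]
    linarith
  have hfi : Integrable ft := by
    rw [integrable_indicator_iff measurableSet_closedBall]
    exact (hf.mono hsub).integrableOn_compact (isCompact_closedBall _ _)
  let κ : ℂ → ℝ := fun y => (r⁻¹) ^ 2 * P.χ ((r⁻¹ : ℝ) * y)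
  have hκ : ContDiff ℝ (⊤ : ℕ∞) κ := by
    have h1 : ContDiff ℝ (⊤ : ℕ∞) (fun y : ℂ => ((r⁻¹ : ℝ) : ℂ) * y) := contDiff_const.mul contDiff_id
    exact contDiff_const.mul (P.χ_smooth.comp h1)
  have hκc : HasCompactSupport κ := by
    apply HasCompactSupport.intro (isCompact_closedBall (0 : ℂ) r)
    intro y hy
    rw [mem_closedBall, dist_zero_right, not_le] at hy
    simp only [κ]
    rw [P.χ_supp, mul_zero]
    rw [norm_mul, Complex.norm_real, Real.norm_eq_abs, abs_of_pos (inv_pos.2 hr0),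
      inv_mul_eq_div, one_le_div hr0]
    exact hy.le
  have hftc : HasCompactSupport ft := by
    apply HasCompactSupport.intro (isCompact_closedBall z₀ (2 * r))
    intro y hy
    exact Set.indicator_of_notMem hy _
  refine ⟨convolution ft κ (ContinuousLinearMap.mul ℝ ℝ) volume, ?_, ?_, ?_⟩
  · exact hκc.contDiff_convolution_right _ hfi.locallyIntegrable hκ
  · exact hftc.convolution _ hκc
  · intro z hz
    rw [mem_ball, dist_eq_norm] at hz
    have h1 : ‖z‖ + r < R := by
      have : ‖z‖ ≤ ‖z₀‖ + ‖z - z₀‖ := by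
        have := norm_add_le z₀ (z - z₀)
        rwa [add_sub_cancel] at this
      rw [hr] at hz ⊢
      linarith
    rw [← hmv z r hr0 h1]
    have h2 : avg P.χ f z r = avg P.χ ft z r := by
      apply avg_congr P hr0
      intro y hy
      rw [mem_ball, dist_eq_norm] at hy
      symm
      apply Set.indicator_of_mem
      rw [mem_closedBall, dist_eq_norm]
      have : y - z₀ = (y - z) + (z - z₀) := by ring
      rw [this]
      refine (norm_add_le _ _).trans ?_
      linarith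
    rw [h2, avg_eq P ft z hr0, convolution_def]
    rw [← integral_sub_left_eq_self (fun t => (ContinuousLinearMap.mul ℝ ℝ) (ft t) (κ (z - t)))
      volume z]
    rw [← integral_neg_eq_self]
    congr 1
    funext y
    simp only [κ, ContinuousLinearMap.mul_apply', sub_sub_cancel, mul_neg]
    rw [P.χ_symm, ← sub_eq_add_neg]
    ring

lemma mv_not_pos (hG : S_GRN) (P : Profile) {R : ℝ} {f : ℂ → ℝ}
    (hf : ContinuousOn f (ball 0 R))
    (hmv : ∀ (z : ℂ) (r : ℝ), 0 < r → ‖z‖ + r < R → avg P.χ f z r = f z) {z₀ : ℂ}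
    (hz₀ : ‖z₀‖ < R) : ¬ 0 < lap f z₀ := by
  intro hpos
  obtain ⟨F, hF, hFc, hfF⟩ := exists_smooth P hf hmv hz₀
  set r : ℝ := (R - ‖z₀‖) / 4 with hr
  have hr0 : 0 < r := by rw [hr]; linarith
  let v : ℂ → ℝ := fun y => F (z₀ + y)
  have hv : ContDiff ℝ (⊤ : ℕ∞) v := hF.comp (contDiff_const.add contDiff_id)
  have hv2 : ContDiff ℝ 2 v := hv.of_le two_le_infty
  have hlv : Continuous (lap v) := continuous_lap hv2
  have hl0 : 0 < lap v 0 := by
    rw [lap_translate, add_zero]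
    have : lap f z₀ = lap F z₀ := by
      apply lap_congr
      filter_upwards [ball_mem_nhds z₀ hr0] with y hy using hfF y hy
    rwa [← this]
  obtain ⟨s, hs0, hs⟩ : ∃ s > 0, ∀ y ∈ ball (0 : ℂ) s, 0 < lap v y := by
    have : ∀ᶠ y in 𝓝 (0 : ℂ), 0 < lap v y := hlv.continuousAt.eventually_const_lt hl0
    obtain ⟨s, hs0, hs⟩ := Metric.eventually_nhds_iff_ball.1 this
    exact ⟨s, hs0, hs⟩
  -- scales
  set b : ℝ := min s r with hb
  have hb0 : 0 < b := lt_min hs0 hr0
  have ha0 : 0 < b / 2 := by positivity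
  have hab : b / 2 < b := by linarith
  have hψ : ContDiff ℝ (⊤ : ℕ∞) (P.ψ (b / 2) b) := P.ψ_smooth _ _ ha0 hab
  have hψ2 : ContDiff ℝ 2 (P.ψ (b / 2) b) := hψ.of_le two_le_infty
  have hψs := P.ψ_supp _ _ ha0 hab
  -- a radius for the support of `v`
  obtain ⟨ρ, hρ0, hρ⟩ : ∃ ρ > 0, ∀ w : ℂ, ρ ≤ ‖w‖ → v w = 0 := by
    obtain ⟨ρ, hρ⟩ := hFc.isCompact.isBounded.subset_closedBall (z₀ : ℂ)
    refine ⟨max ρ 0 + 1, by positivity, fun w hw => ?_⟩
    by_contra hne
    have h1 : z₀ + w ∈ tsupport F := subset_tsupport F hne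
    have h2 := hρ h1
    rw [mem_closedBall, dist_eq_norm, add_sub_cancel_left] at h2
    have := le_max_left ρ 0
    linarith
  have g1 := hG (b + 1) b v (P.ψ (b / 2) b) hb0 (by linarith)
    ((hv.of_le one_le_infty).contDiffOn) hψ2 hψs
  have g2 := hG (ρ + 1) ρ (P.ψ (b / 2) b) v hρ0 (by linarith)
    ((hψ.of_le one_le_infty).contDiffOn) hv2 hρ
  have g3 : ∫ z : ℂ, lap (P.ψ (b / 2) b) z * v z = ∫ z : ℂ, lap v z * P.ψ (b / 2) b z := by
    rw [g1, g2]
    congr 1
    congr 1
    funext z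
    ring
  -- the left side vanishes
  have hint : ∀ t, 0 < t → Integrable (fun y : ℂ => ((t⁻¹) ^ 2 * P.χ ((t⁻¹ : ℝ) * y)) * v y) := by
    intro t ht
    apply Continuous.integrable_of_hasCompactSupport
    · have : Continuous P.χ := P.χ_smooth.continuous
      have := hv.continuous
      fun_prop
    · apply HasCompactSupport.mul_left
      exact HasCompactSupport.intro (isCompact_closedBall (0 : ℂ) ρ) fun y hy => hρ y (by
        rw [mem_closedBall, dist_zero_right, not_le] at hy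
        exact hy.le)
  have havgF : ∀ t, 0 < t → t ≤ r → avg P.χ F z₀ t = f z₀ := by
    intro t ht htr
    rw [← hmv z₀ t ht (by rw [hr] at htr; linarith)]
    apply avg_congr P ht
    intro y hy
    exact (hfF y (ball_subset_ball htr hy)).symm
  have hL : ∫ z : ℂ, lap (P.ψ (b / 2) b) z * v z = 0 := by
    have e1 : ∀ z, lap (P.ψ (b / 2) b) z * v z =
        (((b / 2)⁻¹) ^ 2 * P.χ (((b / 2)⁻¹ : ℝ) * z)) * v z -
          ((b⁻¹) ^ 2 * P.χ ((b⁻¹ : ℝ) * z)) * v z := by
      intro z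
      rw [P.ψ_lap _ _ ha0 hab]
      ring
    simp only [e1]
    rw [integral_sub (hint _ ha0) (hint _ hb0)]
    have e2 := avg_eq P F z₀ ha0
    have e3 := avg_eq P F z₀ hb0
    rw [← e2, ← e3, havgF _ ha0 (hab.le.trans (min_le_right _ _)), havgF _ hb0 (min_le_right _ _),
      sub_self]
  -- the right side is negative
  have hRneg : 0 < ∫ z : ℂ, -(lap v z * P.ψ (b / 2) b z) := by
    apply Continuous.integral_pos_of_hasCompactSupport_nonneg_nonzero (x := (0 : ℂ))
    · exact (hlv.mul hψ.continuous).neg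
    · apply HasCompactSupport.intro (isCompact_closedBall (0 : ℂ) b)
      intro y hy
      rw [mem_closedBall, dist_zero_right, not_le] at hy
      rw [hψs y hy.le, mul_zero, neg_zero]
    · intro y
      simp only [Pi.zero_apply]
      by_cases hy : ‖y‖ < b
      · have h1 := hs y (by rw [mem_ball, dist_zero_right]; exact hy.trans_le (min_le_left _ _))
        have h2 := P.ψ_nonpos _ _ ha0 hab y
        nlinarith
      · rw [hψs y (not_lt.1 hy), mul_zero, neg_zero]
    · have h2 := P.ψ_neg _ _ ha0 hab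
      have : lap v 0 * P.ψ (b / 2) b 0 < 0 := mul_neg_of_pos_of_neg hl0 h2
      exact neg_ne_zero.2 this.ne
  rw [integral_neg, ← g3, hL, neg_zero] at hRneg
  exact lt_irrefl _ hRneg

theorem mv_thm (hG : S_GRN) : S_MV := by
  intro P R f hR hf hmv
  constructor
  · intro z hz
    rw [mem_ball, dist_zero_right] at hz
    obtain ⟨F, hF, -, hfF⟩ := exists_smooth P hf hmv hz
    have h1 : ContDiffAt ℝ 2 F z := (hF.of_le two_le_infty).contDiffAt
    apply ContDiffAt.contDiffWithinAt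
    apply h1.congr_of_eventuallyEq
    filter_upwards [ball_mem_nhds z (show 0 < (R - ‖z‖) / 4 by linarith)] with y hy using hfF y hy
  · intro z hz
    rw [mem_ball, dist_zero_right] at hz
    have h1 := mv_not_pos hG P hf hmv hz
    have h2 : ¬ 0 < lap (fun y => -f y) z := by
      refine mv_not_pos hG P (f := fun y => -f y) hf.neg ?_ hz
      intro z r hr hzr
      have := hmv z r hr hzr
      simp only [avg, mul_neg, integral_neg] at this ⊢
      rw [this]
    rw [lap_neg] at h2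
    linarith [not_lt.1 h1, not_lt.1 h2]

end Helper35.GL
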