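import Pool.Agent.Helper78.GL.Spec

set_option autoImplicit false

open MeasureTheory Metric Set Filter Topology

namespace Helper35.GL

open Helper78.GL

/-- Cauchy–Schwarz -/
lemma cs {α : Type*} [MeasurableSpace α] (μ : Measure α) (f g : α → ℝ)
    (hf : Integrable (fun x => f x ^ 2) μ) (hg : Integrable (fun x => g x ^ 2) μ)
    (hfg : Integrable (fun x => f x * g x) μ) :
    (∫ x, f x * g x ∂μ) ^ 2 ≤ (∫ x, f x ^ 2 ∂μ) * ∫ x, g x ^ 2 ∂μ := by
  have h : ∀ t : ℝ, 0 ≤ (∫ x, f x ^ 2 ∂μ) * (t * t) + (2 * ∫ x, f x * g x ∂μ) * t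
      + ∫ x, g x ^ 2 ∂μ := by
    intro t
    have h1 : (∫ x, f x ^ 2 ∂μ) * (t * t) + (2 * ∫ x, f x * g x ∂μ) * t + ∫ x, g x ^ 2 ∂μ
        = ∫ x, (t * f x + g x) ^ 2 ∂μ := by
      have : (fun x => (t * f x + g x) ^ 2) =
          fun x => (f x ^ 2 * (t * t) + (f x * g x) * (2 * t)) + g x ^ 2 := by
        funext x; ring
      have e1 : Integrable (fun x => f x ^ 2 * (t * t) + (f x * g x) * (2 * t)) μ :=
        (hf.mul_const _).add (hfg.mul_const _)
      rw [this, integral_add e1 hg,
        integral_add (hf.mul_const _) (hfg.mul_const _), integral_mul_const, integral_mul_const]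
      ring
    rw [h1]
    exact integral_nonneg fun x => sq_nonneg _
  have := discrim_le_zero h
  rw [discrim] at this
  nlinarith

lemma int_scale (φ : ℂ → ℝ) (c : ℂ) {s : ℝ} (hs : 0 < s) :
    ∫ w in ball (0 : ℂ) 1, φ (c + (s : ℂ) * w) = (s ^ 2)⁻¹ * ∫ z in ball c s, φ z := by
  rw [← integral_indicator measurableSet_ball, ← integral_indicator measurableSet_ball]
  have h1 : (ball (0 : ℂ) 1).indicator (fun w => φ (c + (s : ℂ) * w)) =
      fun w => (fun x => (ball c s).indicator φ (c + x)) (s • w) := by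
    funext w
    have hiff : c + s • w ∈ ball c s ↔ w ∈ ball (0 : ℂ) 1 := by
      rw [mem_ball, mem_ball, dist_zero_right, dist_eq_norm, add_sub_cancel_left, norm_smul,
        Real.norm_eq_abs, abs_of_pos hs]
      constructor
      · intro h; nlinarith
      · intro h; nlinarith
    by_cases hw : w ∈ ball (0 : ℂ) 1
    · rw [Set.indicator_of_mem hw]
      beta_reduce
      rw [Set.indicator_of_mem (hiff.2 hw), Complex.real_smul]
    · rw [Set.indicator_of_notMem hw]
      beta_reduce
      rw [Set.indicator_of_notMem (fun h => hw (hiff.1 h))]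
  rw [h1, Measure.integral_comp_smul, integral_add_left_eq_self]
  rw [Complex.finrank_real_complex, abs_of_pos (by positivity), smul_eq_mul]

lemma fderiv_apply_le (f : ℂ → ℝ) (y v : ℂ) :
    |fderiv ℝ f y v| ≤ √(dX f y ^ 2 + dY f y ^ 2) * ‖v‖ := by
  have h1 : fderiv ℝ f y v = v.re * dX f y + v.im * dY f y := by
    have : v = v.re • (1 : ℂ) + v.im • Complex.I := by
      rw [Complex.real_smul, Complex.real_smul, mul_one]
      exact (Complex.re_add_im v).symm
    conv_lhs => rw [this]
    rw [map_add, map_smul, map_smul]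
    rfl
  rw [h1]
  apply abs_le_of_sq_le_sq _ (by positivity)
  rw [mul_pow, Real.sq_sqrt (by positivity), ← Complex.normSq_eq_norm_sq, Complex.normSq_apply]
  nlinarith [sq_nonneg (v.re * dY f y - v.im * dX f y)]

theorem trans_thm : S_TRANS := by
  intro P A hA
  set K := ∫ w in ball (0 : ℂ) 1, P.χ w ^ 2 with hK
  have hK0 : 0 ≤ K := integral_nonneg fun x => sq_nonneg _
  refine ⟨2 * A ^ 2 * √K, by positivity, ?_⟩
  intro f R R₁ r r' a a' hr hr' h1 h2 h3 h4 h5 h6 hf
  have hχc : Continuous P.χ := P.χ_smooth.continuous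
  have hR₁ : 0 < R₁ := by have := norm_nonneg a; linarith
  have hfd : ContinuousOn (fun y => fderiv ℝ f y) (ball 0 R) :=
    hf.continuousOn_fderiv_of_isOpen isOpen_ball le_rfl
  have hfc : ContinuousOn f (ball 0 R) := hf.continuousOn
  have hdiff : ∀ y ∈ ball (0 : ℂ) R, HasFDerivAt f (fderiv ℝ f y) y := by
    intro y hy
    exact ((hf.differentiableOn one_ne_zero).differentiableAt (isOpen_ball.mem_nhds hy)).hasFDerivAt
  -- the path
  let s : ℝ → ℝ := fun t => (1 - t) * r + t * r'
  let c : ℝ → ℂ := fun t => ((1 - t : ℝ) : ℂ) * a + ((t : ℝ) : ℂ) * a'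
  let z : ℝ → ℂ → ℂ := fun t w => c t + ((s t : ℝ) : ℂ) * w
  let vv : ℂ → ℂ := fun w => (a' - a) + ((r' - r : ℝ) : ℂ) * w
  have hs0 : ∀ t ∈ Icc (0 : ℝ) 1, 0 < s t := by
    intro t ht
    simp only [s]
    rcases eq_or_lt_of_le ht.1 with h | h
    · rw [← h]; linarith
    · have := mul_pos h hr'
      have := mul_nonneg (sub_nonneg.2 ht.2) hr.le
      linarith
  have hsr : ∀ t ∈ Icc (0 : ℝ) 1, r ≤ A * s t := by
    intro t ht
    simp only [s]
    have e1 : (1 - t) * r ≤ (1 - t) * (A * r) :=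
      mul_le_mul_of_nonneg_left (by nlinarith) (sub_nonneg.2 ht.2)
    have e2 : t * r ≤ t * (A * r') := mul_le_mul_of_nonneg_left h2 ht.1
    nlinarith
  have hcs : ∀ t ∈ Icc (0 : ℝ) 1, ‖c t‖ + s t ≤ R₁ := by
    intro t ht
    have e1 : ‖c t‖ ≤ (1 - t) * ‖a‖ + t * ‖a'‖ := by
      refine (norm_add_le _ _).trans ?_
      rw [norm_mul, norm_mul, Complex.norm_real, Complex.norm_real, Real.norm_eq_abs,
        Real.norm_eq_abs, abs_of_nonneg (sub_nonneg.2 ht.2), abs_of_nonneg ht.1]
    have e2 : (1 - t) * (‖a‖ + r) ≤ (1 - t) * R₁ :=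
      mul_le_mul_of_nonneg_left h4 (sub_nonneg.2 ht.2)
    have e3 : t * (‖a'‖ + r') ≤ t * R₁ := mul_le_mul_of_nonneg_left h5 ht.1
    simp only [s]
    nlinarith
  have hz : ∀ t ∈ Icc (0 : ℝ) 1, ∀ w ∈ closedBall (0 : ℂ) 1, ‖z t w‖ ≤ R₁ := by
    intro t ht w hw
    rw [mem_closedBall, dist_zero_right] at hw
    refine (norm_add_le _ _).trans (le_trans ?_ (hcs t ht))
    rw [norm_mul, Complex.norm_real, Real.norm_eq_abs, abs_of_pos (hs0 t ht)]
    nlinarith [hs0 t ht]
  have hzR : ∀ t ∈ Icc (0 : ℝ) 1, ∀ w ∈ closedBall (0 : ℂ) 1, z t w ∈ ball (0 : ℂ) R := by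
    intro t ht w hw
    rw [mem_ball, dist_zero_right]
    exact (hz t ht w hw).trans_lt h6
  have hvv : ∀ w ∈ closedBall (0 : ℂ) 1, ‖vv w‖ ≤ 2 * A * r := by
    intro w hw
    rw [mem_closedBall, dist_zero_right] at hw
    refine (norm_add_le _ _).trans ?_
    rw [norm_mul, Complex.norm_real, Real.norm_eq_abs]
    have e1 : |r' - r| ≤ A * r := abs_le.2 ⟨by nlinarith, by nlinarith⟩
    have e2 : |r' - r| * ‖w‖ ≤ A * r * 1 :=
      mul_le_mul e1 hw (norm_nonneg _) (by positivity)
    linarith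
  have hzc : Continuous (fun q : ℝ × ℂ => z q.1 q.2) := by
    simp only [z, c, s]
    fun_prop
  have hvc : Continuous vv := by simp only [vv]; fun_prop
  let G : ℂ → ℝ → ℝ := fun w t => P.χ w * (fderiv ℝ f (z t w)) (vv w)
  have hGc : ContinuousOn (Function.uncurry G) (closedBall (0 : ℂ) 1 ×ˢ Icc (0 : ℝ) 1) := by
    have e1 : ContinuousOn (fun q : ℂ × ℝ => fderiv ℝ f (z q.2 q.1))
        (closedBall (0 : ℂ) 1 ×ˢ Icc (0 : ℝ) 1) :=
      hfd.comp (hzc.comp continuous_swap).continuousOn fun q hq => hzR q.2 hq.2 q.1 hq.1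
    exact (hχc.comp continuous_fst).continuousOn.mul
      (e1.clm_apply (hvc.comp continuous_fst).continuousOn)
  have hGi : IntegrableOn (Function.uncurry G) (ball (0 : ℂ) 1 ×ˢ Ioc (0 : ℝ) 1)
      (volume.prod volume) := by
    refine IntegrableOn.mono_set
      (hGc.integrableOn_compact ((isCompact_closedBall _ _).prod isCompact_Icc)) ?_
    exact Set.prod_mono ball_subset_closedBall Ioc_subset_Icc_self
  have hav : ∀ (b : ℂ) (ρ : ℝ), avg P.χ f b ρ =
      ∫ w in ball (0 : ℂ) 1, P.χ w * f (b + (ρ : ℂ) * w) := by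
    intro b ρ
    rw [avg]
    symm
    apply setIntegral_eq_integral_of_forall_compl_eq_zero
    intro w hw
    rw [mem_ball, dist_zero_right, not_lt] at hw
    rw [P.χ_supp w hw, zero_mul]
  have hfi : ∀ t ∈ Icc (0 : ℝ) 1, IntegrableOn (fun w => P.χ w * f (z t w)) (ball (0 : ℂ) 1) := by
    intro t ht
    refine IntegrableOn.mono_set (ContinuousOn.integrableOn_compact (isCompact_closedBall 0 1) ?_)
      ball_subset_closedBall
    refine hχc.continuousOn.mul (hfc.comp ?_ fun w hw => hzR t ht w hw)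
    exact (hzc.comp (Continuous.prodMk_right t)).continuousOn
  have h01 : (0 : ℝ) ∈ Icc (0 : ℝ) 1 := ⟨le_rfl, zero_le_one⟩
  have h11 : (1 : ℝ) ∈ Icc (0 : ℝ) 1 := ⟨zero_le_one, le_rfl⟩
  have hz0 : ∀ w, z 0 w = a + (r : ℂ) * w := by
    intro w; simp [z, c, s]
  have hz1 : ∀ w, z 1 w = a' + (r' : ℂ) * w := by
    intro w; simp [z, c, s]
  have hD : avg P.χ f a' r' - avg P.χ f a r = ∫ w in ball (0 : ℂ) 1, ∫ t in Ioc (0 : ℝ) 1, G w t := by
    rw [hav, hav, ← integral_sub]
    · refine setIntegral_congr_fun measurableSet_ball fun w hw => ?_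
      have hw' := ball_subset_closedBall hw
      rw [← hz0, ← hz1, ← mul_sub]
      have e1 : ∫ t in (0 : ℝ)..1, (fderiv ℝ f (z t w)) (vv w) = f (z 1 w) - f (z 0 w) := by
        refine intervalIntegral.integral_eq_sub_of_hasDerivAt (f := fun t => f (z t w)) ?_ ?_
        · intro t ht
          rw [uIcc_of_le zero_le_one] at ht
          have e2 : HasDerivAt (fun t => z t w) (vv w) t := by
            have e3 : ∀ t, z t w = (a + (r : ℂ) * w) + ((t : ℝ) : ℂ) * vv w := by
              intro t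
              simp only [z, c, s, vv]
              push_cast
              ring
            simp only [e3]
            have e4 : HasDerivAt (fun t : ℝ => ((t : ℝ) : ℂ)) 1 t := Complex.ofRealCLM.hasDerivAt
            have := (e4.mul_const (vv w)).const_add (a + (r : ℂ) * w)
            simpa using this
          exact (hdiff _ (hzR t ht w hw')).comp_hasDerivAt t e2
        · apply ContinuousOn.intervalIntegrable
          rw [uIcc_of_le zero_le_one]
          have e1 : ContinuousOn (fun t : ℝ => fderiv ℝ f (z t w)) (Icc (0 : ℝ) 1) :=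
            hfd.comp (hzc.comp (Continuous.prodMk_left w)).continuousOn
              fun t ht => hzR t ht w hw'
          exact e1.clm_apply continuousOn_const
      rw [← e1, intervalIntegral.integral_of_le zero_le_one, ← integral_const_mul]
    · have := hfi 1 h11
      simp only [hz1] at this
      exact this
    · have := hfi 0 h01
      simp only [hz0] at this
      exact this
  have hswap : ∫ w in ball (0 : ℂ) 1, ∫ t in Ioc (0 : ℝ) 1, G w t =
      ∫ t in Ioc (0 : ℝ) 1, ∫ w in ball (0 : ℂ) 1, G w t := by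
    apply integral_integral_swap
    rw [Measure.prod_restrict]
    exact hGi
  -- energy
  have henc : ContinuousOn (fun y => dX f y ^ 2 + dY f y ^ 2) (ball 0 R) := by
    have e1 : ContinuousOn (fun y => dX f y) (ball 0 R) := hfd.clm_apply continuousOn_const
    have e2 : ContinuousOn (fun y => dY f y) (ball 0 R) := hfd.clm_apply continuousOn_const
    exact (e1.pow 2).add (e2.pow 2)
  have heni : IntegrableOn (fun y => dX f y ^ 2 + dY f y ^ 2) (ball (0 : ℂ) R₁) := by
    refine IntegrableOn.mono_set (ContinuousOn.integrableOn_compact (isCompact_closedBall 0 R₁)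
      (henc.mono (closedBall_subset_ball h6))) ball_subset_closedBall
  have hen0 : 0 ≤ en f R₁ := integral_nonneg fun y => by positivity
  have key : ∀ t ∈ Icc (0 : ℝ) 1,
      |∫ w in ball (0 : ℂ) 1, G w t| ≤ 2 * A ^ 2 * √K * √(en f R₁) := by
    intro t ht
    let Nf : ℂ → ℝ := fun w => √(dX f (z t w) ^ 2 + dY f (z t w) ^ 2)
    have hNc : ContinuousOn Nf (closedBall 0 1) := by
      have : ContinuousOn (fun w => dX f (z t w) ^ 2 + dY f (z t w) ^ 2) (closedBall 0 1) :=
        henc.comp (hzc.comp (Continuous.prodMk_right t)).continuousOn fun w hw => hzR t ht w hw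
      exact this.sqrt
    have hcint : ∀ {φ : ℂ → ℝ}, ContinuousOn φ (closedBall 0 1) →
        IntegrableOn φ (ball (0 : ℂ) 1) := fun h =>
      IntegrableOn.mono_set (h.integrableOn_compact (isCompact_closedBall 0 1))
        ball_subset_closedBall
    have hNi : IntegrableOn (fun w => P.χ w * Nf w) (ball (0 : ℂ) 1) :=
      hcint (hχc.continuousOn.mul hNc)
    have e1 : |∫ w in ball (0 : ℂ) 1, G w t| ≤ ∫ w in ball (0 : ℂ) 1, (2 * A * r) * (P.χ w * Nf w) := by
      rw [← Real.norm_eq_abs]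
      refine norm_integral_le_of_norm_le (hNi.const_mul _) ?_
      refine (ae_restrict_iff' measurableSet_ball).2 (Eventually.of_forall fun w hw => ?_)
      have hw' := ball_subset_closedBall hw
      simp only [G]
      rw [Real.norm_eq_abs, abs_mul, abs_of_nonneg (P.χ_nonneg w)]
      have e2 := fderiv_apply_le f (z t w) (vv w)
      have e3 : Nf w * ‖vv w‖ ≤ Nf w * (2 * A * r) :=
        mul_le_mul_of_nonneg_left (hvv w hw') (Real.sqrt_nonneg _)
      have e4 := mul_le_mul_of_nonneg_left (e2.trans e3) (P.χ_nonneg w)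
      linarith
    have e5 : ∫ w in ball (0 : ℂ) 1, Nf w ^ 2 ≤ (s t ^ 2)⁻¹ * en f R₁ := by
      have e6 : ∀ w, Nf w ^ 2 = (fun y => dX f y ^ 2 + dY f y ^ 2) (c t + ((s t : ℝ) : ℂ) * w) := by
        intro w
        exact Real.sq_sqrt (by positivity)
      simp only [e6]
      rw [int_scale (fun y => dX f y ^ 2 + dY f y ^ 2) (c t) (hs0 t ht)]
      apply mul_le_mul_of_nonneg_left _ (by positivity)
      apply setIntegral_mono_set heni (Eventually.of_forall fun y => by positivity)
      apply LE.le.eventuallyLE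
      apply ball_subset_ball'
      rw [dist_zero_right]
      have := hcs t ht
      linarith
    have e7 : ∫ w in ball (0 : ℂ) 1, P.χ w * Nf w ≤ √K * √((s t ^ 2)⁻¹ * en f R₁) := by
      have e8 := cs (volume.restrict (ball (0 : ℂ) 1)) P.χ Nf (hcint (hχc.pow 2).continuousOn)
        (hcint (hNc.pow 2)) hNi
      rw [← Real.sqrt_mul hK0]
      apply Real.le_sqrt_of_sq_le
      exact e8.trans (mul_le_mul_of_nonneg_left e5 hK0)
    rw [integral_const_mul] at e1
    refine e1.trans ?_
    have e9 : √((s t ^ 2)⁻¹ * en f R₁) = (s t)⁻¹ * √(en f R₁) := by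
      rw [Real.sqrt_mul (by positivity), Real.sqrt_inv, Real.sqrt_sq (hs0 t ht).le]
    rw [e9] at e7
    have e10 := mul_le_mul_of_nonneg_left e7 (by positivity : (0 : ℝ) ≤ 2 * A * r)
    refine e10.trans ?_
    have e11 : r * (s t)⁻¹ ≤ A := by
      rw [← div_eq_mul_inv, div_le_iff₀ (hs0 t ht)]
      exact hsr t ht
    have e12 : (2 * A * r) * (√K * ((s t)⁻¹ * √(en f R₁))) =
        (2 * A * √K * √(en f R₁)) * (r * (s t)⁻¹) := by ring
    have e13 : 2 * A ^ 2 * √K * √(en f R₁) = (2 * A * √K * √(en f R₁)) * A := by ring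
    rw [e12, e13]
    exact mul_le_mul_of_nonneg_left e11 (by positivity)
  rw [abs_sub_comm, hD, hswap, ← Real.norm_eq_abs]
  refine (norm_setIntegral_le_of_norm_le_const (C := 2 * A ^ 2 * √K * √(en f R₁)) (by simp)
    ?_).trans ?_
  · intro t ht
    rw [Real.norm_eq_abs]
    exact key t (Ioc_subset_Icc_self ht)
  · simp

end Helper35.GL
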