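import Pool.Agent.Helper35.GL.TRANS

set_option autoImplicit false

open MeasureTheory Metric Set Filter Topology

namespace Helper35.GL

open Helper78.GL Pool.GL

section base

variable {M : Type} {T : TS M}

lemma dX_eq (v : M → ℝ) {p : M} {z : ℂ} (hz : ‖z‖ < T.rho p) :
    (fun h => v (T.Phi (T.Phi p z) h)) =ᶠ[𝓝 0] fun h => v (T.Phi p (z + h)) := by
  have : ∀ᶠ h : ℂ in 𝓝 0, ‖h‖ < T.rho p - ‖z‖ := by
    filter_upwards [ball_mem_nhds (0 : ℂ) (sub_pos.2 hz)] with h hh
    simpa using hh
  filter_upwards [this] with h hh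
  rw [T.Phi_add p z h (by linarith)]

lemma dx_Phi (v : M → ℝ) {p : M} {z : ℂ} (hz : ‖z‖ < T.rho p) :
    T.dx v (T.Phi p z) = dX (fun z => v (T.Phi p z)) z := by
  rw [TS.dx, dX, dX, (dX_eq v hz).fderiv_eq,
    fderiv_comp_add_left (f := fun z => v (T.Phi p z)) z, add_zero]

lemma dy_Phi (v : M → ℝ) {p : M} {z : ℂ} (hz : ‖z‖ < T.rho p) :
    T.dy v (T.Phi p z) = dY (fun z => v (T.Phi p z)) z := by
  rw [TS.dy, dY, dY, (dX_eq v hz).fderiv_eq,
    fderiv_comp_add_left (f := fun z => v (T.Phi p z)) z, add_zero]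

lemma cont_dx {v : M → ℝ} (hv : T.Smooth v) : T.Cont (T.dx v) := by
  intro p
  have h1 : ContinuousOn (fun z => dX (fun z => v (T.Phi p z)) z) (ball 0 (T.rho p)) :=
    ((hv p).continuousOn_fderiv_of_isOpen isOpen_ball le_rfl).clm_apply continuousOn_const
  exact h1.congr fun z hz => dx_Phi v (by simpa using hz)

lemma cont_dy {v : M → ℝ} (hv : T.Smooth v) : T.Cont (T.dy v) := by
  intro p
  have h1 : ContinuousOn (fun z => dY (fun z => v (T.Phi p z)) z) (ball 0 (T.rho p)) :=
    ((hv p).continuousOn_fderiv_of_isOpen isOpen_ball le_rfl).clm_apply continuousOn_const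
  exact h1.congr fun z hz => dy_Phi v (by simpa using hz)

/-- energy density -/
noncomputable def dens (T : TS M) (v : M → ℝ) (x : M) : ℝ := T.dx v x ^ 2 + T.dy v x ^ 2

lemma cont_dens {v : M → ℝ} (hv : T.Smooth v) : T.Cont (dens T v) :=
  fun p => ((cont_dx hv p).pow 2).add ((cont_dy hv p).pow 2)

lemma csupp_dens (hA : S_TSA) {v : M → ℝ} (hv : T.CSupp v) : T.CSupp (dens T v) := by
  classical
  obtain ⟨S, hS, hvS⟩ := hv
  refine ⟨S.image fun a => (a.1, (a.2 + T.rho a.1 / 4) / 2), ?_, ?_⟩
  · intro b hb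
    obtain ⟨a, ha, rfl⟩ := Finset.mem_image.1 hb
    have := hS a ha
    have := T.rho_pos a.1
    constructor
    · simp only; linarith
    · simp only; linarith
  · intro x hx
    -- small nonzero values nearby
    have hfreq : ∃ᶠ h : ℂ in 𝓝 0, v (T.Phi x h) ≠ 0 := by
      intro hev
      apply hx
      have hev' : (fun h => v (T.Phi x h)) =ᶠ[𝓝 0] fun _ => (0 : ℝ) := by
        filter_upwards [hev] with h hh
        simpa using hh
      simp [dens, TS.dx, TS.dy, dX, dY, hev'.fderiv_eq]
    have hsmall : ∀ᶠ h : ℂ in 𝓝 0, ‖h‖ < T.rho x / 2 ∧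
        ∀ a ∈ S, ‖h‖ < (T.rho a.1 / 4 - a.2) / 2 := by
      have e1 : ∀ {δ : ℝ}, 0 < δ → ∀ᶠ h : ℂ in 𝓝 0, ‖h‖ < δ := by
        intro δ hδ
        filter_upwards [ball_mem_nhds (0 : ℂ) hδ] with h hh
        simpa using hh
      refine (e1 (by have := T.rho_pos x; linarith)).and ?_
      rw [Filter.eventually_all_finset]
      intro a ha
      exact e1 (by have := (hS a ha).2; linarith)
    obtain ⟨h, hne, hh1, hh2⟩ := (hfreq.and_eventually hsmall).exists
    obtain ⟨a, ha, w, hw, hxw⟩ := hvS _ hne
    refine ⟨_, Finset.mem_image_of_mem _ ha, w - h, ?_, ?_⟩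
    · have := hh2 a ha
      have := norm_sub_le w h
      simp only
      linarith
    · have e2 := (hA M T x h hh1).2
      rw [← e2, hxw, T.Phi_add]
      · rw [sub_eq_add_neg]
      · rw [norm_neg]
        have e3 := hh2 a ha
        have e4 := (hS a ha).2
        have e5 := T.rho_pos a.1
        linarith

lemma en_disc {v : M → ℝ} [MeasurableSpace M] {μ : Measure M} (hI : S_INT) (hμ : T.IsArea μ)
    (hv : T.Smooth v) (p : M) {r : ℝ} (hr : 0 < r) (hr' : r ≤ T.rho p / 4) :
    en (fun z => v (T.Phi p z)) r = ∫ x in T.disc p r, dens T v x ∂μ := by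
  rw [(hI M T μ hμ).2.2.2 _ (cont_dens hv) p r hr hr', en]
  refine setIntegral_congr_fun measurableSet_ball fun z hz => ?_
  have hz' : ‖z‖ < T.rho p := by
    rw [mem_ball, dist_zero_right] at hz
    have := T.rho_pos p
    linarith
  simp only [dens, dx_Phi v hz', dy_Phi v hz']

end base

/-- words of length `k` -/
def WW : ℕ → Finset (List Bool)
  | 0 => {[]}
  | k + 1 => (WW k).map ⟨List.cons true, List.cons_injective⟩ ∪
      (WW k).map ⟨List.cons false, List.cons_injective⟩

lemma WW_length {k : ℕ} {w : List Bool} (h : w ∈ WW k) : w.length = k := by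
  induction k generalizing w with
  | zero => simp [WW] at h; simp [h]
  | succ k ih =>
    simp only [WW, Finset.mem_union, Finset.mem_map, Function.Embedding.coeFn_mk] at h
    rcases h with ⟨a, ha, rfl⟩ | ⟨a, ha, rfl⟩
    · simp [ih ha]
    · simp [ih ha]

lemma WW_sum (k : ℕ) (f : List Bool → ℝ) :
    ∑ w ∈ WW (k + 1), f w = ∑ w ∈ WW k, (f (true :: w) + f (false :: w)) := by
  rw [WW, Finset.sum_union, Finset.sum_map, Finset.sum_map, Finset.sum_add_distrib]
  · rfl
  · rw [Finset.disjoint_left]
    intro w hw hw'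
    simp only [Finset.mem_map, Function.Embedding.coeFn_mk] at hw hw'
    obtain ⟨a, -, rfl⟩ := hw
    obtain ⟨b, -, hb⟩ := hw'
    simp at hb

lemma WW_card (k : ℕ) : (WW k).card = 2 ^ k := by
  induction k with
  | zero => simp [WW]
  | succ k ih =>
    rw [WW, Finset.card_union_of_disjoint, Finset.card_map, Finset.card_map, ih, pow_succ]
    · ring
    · rw [Finset.disjoint_left]
      intro w hw hw'
      simp only [Finset.mem_map, Function.Embedding.coeFn_mk] at hw hw'
      obtain ⟨a, -, rfl⟩ := hw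
      obtain ⟨b, -, hb⟩ := hw'
      simp at hb

theorem tree_thm (hA : S_TSA) (hI : S_INT) : S_TREE := by
  intro P M T _ μ hμ t
  obtain ⟨C, hC0, hC⟩ := trans_thm P 2 (by norm_num)
  have hrp := t.r_pos
  have hrle := t.r_le
  refine ⟨by have := hrp [] false 0; linarith, ?_, ?_⟩
  · have := hrp [] false 0
    have := hrle [] false 0
    linarith
  set q : ℝ := √(1 / 2) with hq
  have hq0 : 0 ≤ q := Real.sqrt_nonneg _
  have hq1 : q < 1 := by
    rw [hq, Real.sqrt_lt' one_pos]
    norm_num
  have hqs : Summable (fun k : ℕ => q ^ k) := summable_geometric_of_lt_one hq0 hq1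
  refine ⟨t.n0 * C * ∑' k : ℕ, q ^ k, fun v hv => ?_⟩
  have hDint : Integrable (dens T v) μ :=
    (hI M T μ hμ).2.2.1 _ (cont_dens hv.1) (csupp_dens hA hv.2)
  have hdens0 : ∀ x, 0 ≤ dens T v x := fun x => by unfold dens; positivity
  have hD : T.D μ v v = ∫ x, dens T v x ∂μ := by
    rw [TS.D]
    congr 1
    funext x
    rw [dens]
    ring
  set Dv := T.D μ v v with hDv
  -- the averages
  let m : List Bool → Bool → ℕ → ℝ := fun w i j =>
    avg P.χ (fun z => v (T.Phi (t.y w i j) z)) 0 (t.r w i j / 8)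
  let E : List Bool → Bool → ℕ → ℝ := fun w i j =>
    en (fun z => v (T.Phi (t.y w i j) z)) (t.r w i j / 2)
  have hE : ∀ w i j, E w i j = ∫ x in T.disc (t.y w i j) (t.r w i j / 2), dens T v x ∂μ := by
    intro w i j
    apply en_disc hI hμ hv.1
    · have := hrp w i j; linarith
    · have := hrle w i j; linarith
  have hE0 : ∀ w i j, 0 ≤ E w i j := by
    intro w i j
    rw [hE]
    exact integral_nonneg fun x => hdens0 x
  have hstep : ∀ w i j, j < t.n0 → |m w i j - m w i (j + 1)| ≤ C * √(E w i j) := by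
    intro w i j hj
    obtain ⟨a, ha, hya⟩ := t.step w i j hj
    obtain ⟨hr1, hr2⟩ := t.ratio w i j hj
    have h1 := hrp w i j
    have h1' := hrp w i (j + 1)
    have h2 := hrle w i j
    have e1 : m w i (j + 1) =
        avg P.χ (fun z => v (T.Phi (t.y w i j) z)) a (t.r w i (j + 1) / 8) := by
      simp only [m, avg]
      congr 1
      funext x
      by_cases hx : ‖x‖ < 1
      · rw [hya, T.Phi_add, zero_add]
        rw [zero_add, norm_mul, Complex.norm_real, Real.norm_eq_abs, abs_of_pos (by linarith)]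
        nlinarith [norm_nonneg x]
      · rw [P.χ_supp x (not_lt.1 hx), zero_mul, zero_mul]
    rw [e1]
    apply hC (fun z => v (T.Phi (t.y w i j) z)) (T.rho (t.y w i j)) (t.r w i j / 2)
      (t.r w i j / 8) (t.r w i (j + 1) / 8) 0 a
    · linarith
    · linarith
    · linarith
    · linarith
    · rw [sub_zero]; linarith
    · rw [norm_zero]; linarith
    · linarith
    · linarith
    · exact hv.1 _
  -- the energies of one level
  have hsumE : ∀ k i j, j ≤ t.n0 → ∑ w ∈ WW k, E w i j ≤ Dv := by
    intro k i j hj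
    simp only [hE]
    rw [← integral_biUnion_finset]
    · rw [hD]
      exact setIntegral_le_integral hDint (Eventually.of_forall hdens0)
    · intro w _
      refine (hI M T μ hμ).1 _ _ ?_ ?_
      · have := hrp w i j; linarith
      · have := hrle w i j; linarith
    · intro w hw w' hw' hne
      have := t.disj w w' i j ((WW_length hw).trans (WW_length hw').symm) hne hj
      refine this.mono ?_ ?_
      · exact Set.image_mono (ball_subset_ball (by have := hrp w i j; linarith))
      · exact Set.image_mono (ball_subset_ball (by have := hrp w' i j; linarith))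
    · intro w _
      exact hDint.integrableOn
  have hDv0 : 0 ≤ Dv := by
    rw [hD]; exact integral_nonneg hdens0
  have hsq : ∀ k i j, j ≤ t.n0 → ∑ w ∈ WW k, √(E w i j) ≤ √(2 ^ k) * √Dv := by
    intro k i j hj
    rw [← Real.sqrt_mul (by positivity)]
    apply Real.le_sqrt_of_sq_le
    have h1 := sq_sum_le_card_mul_sum_sq (s := WW k) (f := fun w => √(E w i j))
    refine h1.trans ?_
    rw [WW_card]
    push_cast
    apply mul_le_mul_of_nonneg_left _ (by positivity)
    refine le_trans (le_of_eq ?_) (hsumE k i j hj)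
    exact Finset.sum_congr rfl fun w _ => Real.sq_sqrt (hE0 w i j)
  -- level sums
  let X : ℕ → ℝ := fun k => (2 ^ k)⁻¹ * ∑ w ∈ WW k, m w false 0
  have hm0 : ∀ w, m w true 0 = m w false 0 := by
    intro w
    obtain ⟨h1, h2⟩ := t.start w
    simp only [m, h1, h2]
  have hmn : ∀ w i, m w i t.n0 = m (i :: w) false 0 := by
    intro w i
    obtain ⟨h1, h2⟩ := t.finish w i
    simp only [m, h1, h2]
  have htel : ∀ w i, m w i 0 - m w i t.n0 = ∑ j ∈ Finset.range t.n0, (m w i j - m w i (j + 1)) := by
    intro w i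
    rw [Finset.sum_range_sub']
  have hXdiff : ∀ k, |X k - X (k + 1)| ≤ t.n0 * C * √Dv * q ^ k := by
    intro k
    have e1 : X k - X (k + 1) = (2 ^ (k + 1))⁻¹ *
        (∑ j ∈ Finset.range t.n0, ∑ w ∈ WW k, (m w true j - m w true (j + 1)) +
          ∑ j ∈ Finset.range t.n0, ∑ w ∈ WW k, (m w false j - m w false (j + 1))) := by
      rw [Finset.sum_comm, Finset.sum_comm (s := Finset.range t.n0) (t := WW k)]
      simp only [← htel, hmn, hm0]
      simp only [X]
      rw [WW_sum, ← Finset.sum_add_distrib]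
      have e2 : ((2 : ℝ) ^ k)⁻¹ = (2 ^ (k + 1))⁻¹ * 2 := by
        rw [pow_succ]
        field_simp
      rw [e2, mul_assoc, ← mul_sub, Finset.mul_sum, ← Finset.sum_sub_distrib]
      congr 1
      refine Finset.sum_congr rfl fun w _ => ?_
      ring
    have e3 : ∀ i, |∑ j ∈ Finset.range t.n0, ∑ w ∈ WW k, (m w i j - m w i (j + 1))| ≤
        t.n0 * (C * (√(2 ^ k) * √Dv)) := by
      intro i
      refine (Finset.abs_sum_le_sum_abs _ _).trans ?_
      have e4 : ∀ j ∈ Finset.range t.n0, |∑ w ∈ WW k, (m w i j - m w i (j + 1))| ≤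
          C * (√(2 ^ k) * √Dv) := by
        intro j hj
        rw [Finset.mem_range] at hj
        refine (Finset.abs_sum_le_sum_abs _ _).trans ?_
        refine (Finset.sum_le_sum fun w _ => hstep w i j hj).trans ?_
        rw [← Finset.mul_sum]
        exact mul_le_mul_of_nonneg_left (hsq k i j hj.le) hC0
      refine (Finset.sum_le_sum e4).trans ?_
      rw [Finset.sum_const, Finset.card_range, nsmul_eq_mul]
    have e5 : √(2 ^ k) = 2 ^ k * q ^ k := by
      rw [hq]
      have : √((2 : ℝ) ^ k) = √2 ^ k := by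
        rw [Real.sqrt_eq_rpow, Real.sqrt_eq_rpow, ← Real.rpow_natCast, ← Real.rpow_natCast,
          ← Real.rpow_mul (by norm_num), ← Real.rpow_mul (by norm_num)]
        ring_nf
      rw [this, ← mul_pow]
      congr 1
      rw [one_div, Real.sqrt_inv]
      have h2 : √(2 : ℝ) ≠ 0 := by positivity
      field_simp
      norm_num
    rw [e1, abs_mul, abs_of_pos (by positivity : (0 : ℝ) < (2 ^ (k + 1))⁻¹)]
    have e6 := (abs_add_le _ _).trans (add_le_add (e3 true) (e3 false))
    refine (mul_le_mul_of_nonneg_left e6 (by positivity)).trans (le_of_eq ?_)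
    rw [e5, pow_succ]
    field_simp
    ring
  -- the levels far away
  have hfar : ∃ K, X K = 0 := by
    obtain ⟨S, hS, hvS⟩ := hv.2
    have hesc := t.escape
    choose N hN using hesc
    refine ⟨S.sup fun a => N a.1, ?_⟩
    simp only [X]
    rw [Finset.sum_eq_zero, mul_zero]
    intro w hw
    have hlen := WW_length hw
    simp only [m, avg]
    have : ∀ x : ℂ, P.χ x * v (T.Phi (t.y w false 0) (0 + ((t.r w false 0 / 8 : ℝ) : ℂ) * x)) = 0 := by
      intro x
      by_cases hx : ‖x‖ < 1
      · rw [zero_add]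
        have hv0 : v (T.Phi (t.y w false 0) (((t.r w false 0 / 8 : ℝ) : ℂ) * x)) = 0 := by
          by_contra hne
          obtain ⟨a, ha, z, hz, hxz⟩ := hvS _ hne
          have hle : N a.1 ≤ w.length := by
            rw [hlen]
            exact Finset.le_sup (f := fun a : M × ℝ => N a.1) ha
          have hdis := hN a.1 w hle
          refine Set.disjoint_left.1 hdis (show T.Phi (t.y w false 0)
            (((t.r w false 0 / 8 : ℝ) : ℂ) * x) ∈ T.disc (t.y w false 0) (t.r w false 0) from ?_) ?_
          · refine ⟨_, ?_, rfl⟩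
            rw [mem_ball, dist_zero_right, norm_mul, Complex.norm_real, Real.norm_eq_abs,
              abs_of_pos (by have := hrp w false 0; linarith)]
            have := hrp w false 0
            nlinarith [norm_nonneg x]
          · rw [hxz]
            refine ⟨z, ?_, rfl⟩
            rw [mem_closedBall, dist_zero_right]
            have := (hS a ha).2
            have := T.rho_pos a.1
            linarith
        rw [hv0, mul_zero]
      · rw [P.χ_supp x (not_lt.1 hx), zero_mul]
    simp only [this, integral_zero]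
  obtain ⟨K, hK⟩ := hfar
  have hX0 : base P T (t.y [] false 0) (t.r [] false 0 / 8) v = X 0 := by
    simp [X, WW, m, base]
  rw [hX0]
  have hX0K : X 0 = ∑ k ∈ Finset.range K, (X k - X (k + 1)) := by
    rw [Finset.sum_range_sub', hK, sub_zero]
  rw [hX0K]
  refine (Finset.abs_sum_le_sum_abs _ _).trans ?_
  refine (Finset.sum_le_sum fun k _ => hXdiff k).trans ?_
  rw [← Finset.mul_sum]
  have h1 : ∑ k ∈ Finset.range K, q ^ k ≤ ∑' k : ℕ, q ^ k :=
    hqs.sum_le_tsum _ fun k _ => by positivity
  have h2 := mul_le_mul_of_nonneg_left h1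
    (by positivity : (0 : ℝ) ≤ t.n0 * C * √Dv)
  refine h2.trans (le_of_eq ?_)
  ring

end Helper35.GL
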